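import Pool.Agent.Lib.MP_ba0fa5_ag.AA.IfaceA

/-!
MP_ba0fa5_ag, Theorem A, module TRIV: trivial sums over classes.
-/

set_option autoImplicit false

namespace Pool.Agent.Lib.MP_ba0fa5_ag.AA.H35

open scoped Classical
open Finset

/-- the elements of a class which are at least `D` -/
theorem big (N D c : ℕ) (hD : 1 ≤ D) (S : Finset ℕ)
    (hS : ∀ n ∈ S, n ≡ c [MOD D] ∧ D ≤ n ∧ n ≤ N) :
    ∑ n ∈ S, (1 : ℝ) / n ≤ (1 + Real.log N) / D := by
  have hD0 : (0 : ℝ) < D := by exact_mod_cast hD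
  have h1 : ∀ n ∈ S, (1 : ℝ) / n ≤ 1 / D * (((n / D : ℕ) : ℝ))⁻¹ := by
    intro n hn
    obtain ⟨_, h2, _⟩ := hS n hn
    have h3 : 1 ≤ n / D := Nat.div_pos h2 hD
    have h4 : D * (n / D) ≤ n := Nat.mul_div_le n D
    have h5 : (0 : ℝ) < ((n / D : ℕ) : ℝ) := by exact_mod_cast h3
    have h6 : (D : ℝ) * ((n / D : ℕ) : ℝ) ≤ n := by exact_mod_cast h4
    calc (1 : ℝ) / n ≤ 1 / ((D : ℝ) * ((n / D : ℕ) : ℝ)) :=
          one_div_le_one_div_of_le (by positivity) h6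
      _ = 1 / D * (((n / D : ℕ) : ℝ))⁻¹ := by field_simp
  have h2 : ∑ n ∈ S, (((n / D : ℕ) : ℝ))⁻¹ ≤ ∑ q ∈ Icc 1 N, ((q : ℕ) : ℝ)⁻¹ := by
    rw [← Finset.sum_image (s := S) (g := fun n => n / D) (f := fun q : ℕ => ((q : ℕ) : ℝ)⁻¹)]
    · refine Finset.sum_le_sum_of_subset_of_nonneg ?_ fun q _ _ => by positivity
      intro q hq
      obtain ⟨n, hn, rfl⟩ := Finset.mem_image.1 hq
      obtain ⟨_, h3, h4⟩ := hS n hn
      exact Finset.mem_Icc.2 ⟨Nat.div_pos h3 hD, (Nat.div_le_self n D).trans h4⟩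
    · intro a ha b hb hab
      have h3 := (hS a ha).1.trans (hS b hb).1.symm
      have h4 : a % D = b % D := h3
      have h5 : a / D = b / D := hab
      rw [← Nat.div_add_mod a D, ← Nat.div_add_mod b D, h4, h5]
  have h3 : ∑ q ∈ Icc 1 N, ((q : ℕ) : ℝ)⁻¹ ≤ 1 + Real.log N := by
    have h := harmonic_le_one_add_log N
    rw [harmonic_eq_sum_Icc] at h
    push_cast at h
    exact h
  calc ∑ n ∈ S, (1 : ℝ) / n ≤ ∑ n ∈ S, 1 / D * (((n / D : ℕ) : ℝ))⁻¹ := Finset.sum_le_sum h1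
    _ = 1 / D * ∑ n ∈ S, (((n / D : ℕ) : ℝ))⁻¹ := by rw [Finset.mul_sum]
    _ ≤ 1 / D * (1 + Real.log N) := mul_le_mul_of_nonneg_left (h2.trans h3) (by positivity)
    _ = (1 + Real.log N) / D := by ring

/-- at most one element of a class is smaller than `D` -/
theorem small (D c : ℕ) (S : Finset ℕ) (b : ℝ) (hb : 0 ≤ b)
    (hS : ∀ n ∈ S, n ≡ c [MOD D] ∧ n < D ∧ (1 : ℝ) / n ≤ b) :
    ∑ n ∈ S, (1 : ℝ) / n ≤ b := by
  have hcard : S.card ≤ 1 := by
    rw [Finset.card_le_one]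
    intro x hx y hy
    have h3 := (hS x hx).1.trans (hS y hy).1.symm
    have h4 : x % D = y % D := h3
    rwa [Nat.mod_eq_of_lt (hS x hx).2.1, Nat.mod_eq_of_lt (hS y hy).2.1] at h4
  calc ∑ n ∈ S, (1 : ℝ) / n ≤ S.card • b := Finset.sum_le_card_nsmul _ _ _ fun n hn => (hS n hn).2.2
    _ ≤ 1 • b := nsmul_le_nsmul_left hb hcard
    _ = b := one_nsmul b

/-- TRIV -/
theorem triv : TrivStmt := by
  refine ⟨11, by norm_num, fun Y D c hY hD => ?_⟩
  have hY0 : (0 : ℝ) < Y := by exact_mod_cast (by omega : 0 < Y)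
  have hD0 : (0 : ℝ) < D := by exact_mod_cast hD
  have hl2 : (1 / 2 : ℝ) ≤ Real.log Y := by
    have h1 := Real.log_two_gt_d9
    have h2 : Real.log 2 ≤ Real.log Y := Real.log_le_log (by norm_num) (by exact_mod_cast hY)
    linarith
  have hlog : 1 + Real.log ((Y ^ 3 : ℕ) : ℝ) ≤ 5 * Real.log Y := by
    push_cast
    rw [Real.log_pow]
    push_cast
    linarith
  have hlogD : (1 + Real.log ((Y ^ 3 : ℕ) : ℝ)) / D ≤ 5 * Real.log Y / D :=
    div_le_div_of_nonneg_right hlog hD0.le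
  have hll : 0 ≤ Real.log Y / D := by positivity
  refine ⟨?_, ?_, ?_⟩
  · rw [← Finset.sum_filter_add_sum_filter_not _ (fun n => n < D)]
    refine add_le_add (small D c _ (1 / Y) (by positivity) ?_) ((big (Y ^ 3) D c hD _ ?_).trans ?_)
    · intro n hn
      simp only [mem_filter, mem_Ioc] at hn
      refine ⟨hn.1.2, hn.2, one_div_le_one_div_of_le hY0 ?_⟩
      exact_mod_cast hn.1.1.1.le
    · intro n hn
      simp only [mem_filter, mem_Ioc] at hn
      exact ⟨hn.1.2, not_lt.1 hn.2, hn.1.1.2⟩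
    · refine hlogD.trans ?_
      rw [mul_div_assoc, mul_div_assoc]
      linarith
  · refine (big (Y ^ 3) D 0 hD _ ?_).trans ?_
    · intro n hn
      simp only [mem_filter, mem_Ioc] at hn
      exact ⟨(Nat.modEq_zero_iff_dvd).2 hn.2, Nat.le_of_dvd (by omega) hn.2, hn.1.2⟩
    · refine hlogD.trans ?_
      rw [mul_div_assoc, mul_div_assoc]
      linarith
  · rw [← Finset.sum_filter_add_sum_filter_not _ (fun n => n < D)]
    have h1 := small D c (((Ioc Y (Y ^ 3)).filter (fun n => n ≡ c [MOD D] ∧ D ≤ 3 * n)).filter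
      (fun n => n < D)) (3 / D) (by positivity) (by
        intro n hn
        simp only [mem_filter, mem_Ioc] at hn
        refine ⟨hn.1.2.1, hn.2, ?_⟩
        have h3 : (D : ℝ) ≤ 3 * n := by exact_mod_cast hn.1.2.2
        have h4 : (0 : ℝ) < n := by
          have : 0 < n := by omega
          exact_mod_cast this
        rw [div_le_div_iff₀ h4 hD0]
        linarith)
    have h2 := big (Y ^ 3) D c hD (((Ioc Y (Y ^ 3)).filter (fun n => n ≡ c [MOD D] ∧ D ≤ 3 * n)).filter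
      (fun n => ¬ n < D)) (by
        intro n hn
        simp only [mem_filter, mem_Ioc] at hn
        exact ⟨hn.1.2.1, not_lt.1 hn.2, hn.1.1.2⟩)
    refine (add_le_add h1 (h2.trans hlogD)).trans ?_
    rw [← add_div]
    refine div_le_div_of_nonneg_right ?_ hD0.le
    linarith

end Pool.Agent.Lib.MP_ba0fa5_ag.AA.H35
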